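import Pool.Agent.U36.TS.Stm2

set_option autoImplicit false

namespace Pool.Agent.U36.TS.Own

theorem t_PT : S_PT := by
  intro M _ l q th T Ph U h n
  have hfix : ∀ (k : ℕ) (x : M), T x = x → (T ^ k) x = x := by
    intro k x hx
    induction k with
    | zero => rfl
    | succ k ih => rw [pow_succ, RingAut.mul_apply, hx, ih]
  have hrel : ∀ (k : ℕ) (x : M), Ph ((T ^ k) x) = (T ^ (q * k)) (Ph x) := by
    intro k
    induction k with
    | zero => intro x; simp
    | succ k ih =>
      intro x
      rw [pow_succ, RingAut.mul_apply, ih, h.rel, mul_add, mul_one, pow_add, RingAut.mul_apply]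
  exact
    { prime := h.prime
      two := h.two
      prim := h.prim
      comp := h.comp
      T_fix := fun m => hfix n _ (h.T_fix m)
      Ph_pow := h.Ph_pow
      rel := fun x => by rw [hrel, ← pow_mul, mul_comm]
      ne_zero := h.ne_zero
      mul := h.mul
      inv := h.inv
      T_mem := fun x hx => by
        have : ∀ k : ℕ, ∀ x ∈ U, (T ^ k) x ∈ U := by
          intro k
          induction k with
          | zero => intro x hx; simpa using hx
          | succ k ih =>
            intro x hx
            rw [pow_succ, RingAut.mul_apply]
            exact ih _ (h.T_mem x hx)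
        exact this n x hx
      root := h.root
      of_pow := h.of_pow
      one_sub := h.one_sub
      const := fun m i hi => ⟨(h.const m i hi).1, fun k y hy => hfix n y ((h.const m i hi).2 k y hy)⟩ }

end Pool.Agent.U36.TS.Own
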