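import Pool.Agent.U36.TS.Stm

/-!
# Project TSH: the relation of the tame quotient
-/

set_option autoImplicit false

namespace Pool.Agent.U36.TS

/-- RE: a Frobenius element with exponent `q` raises inertia elements to the power `q`, modulo wild
inertia -/
def S_RE : Prop :=
  ∀ (K B : Type) [Field K] [Field B] [CharZero K] [Algebra K B] [IsAlgClosure K B]
    (V : ValuationSubring B) (q : ℕ) (t f : B ≃ₐ[K] B), Inertia V t → Frob V q f →
    Wild V (f * t * f⁻¹ * (t ^ q)⁻¹)

end Pool.Agent.U36.TS
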