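import Pool.Agent.TH954.SBir

/-!
# Project TS: the shape of the ramification of units at sections over local fields. Statements.

`T` is the action of a generator of tame inertia, `Ph` the action of a Frobenius element.
-/

set_option autoImplicit false

namespace Pool.Agent.U36.TS

open Pool.Agent.TH954

/-- The abstract situation: `th m` are compatible primitive roots of unity of order `l ^ m`, `U` is a
group of units which contains the roots of its elements. -/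
structure Tame (M : Type) [Field M] (l q : ℕ) (th : ℕ → M) (T Ph : M ≃+* M) (U : Set M) : Prop where
  prime : l.Prime
  two : 2 ≤ q
  prim : ∀ m, IsPrimitiveRoot (th m) (l ^ m)
  comp : ∀ m, th (m + 1) ^ l = th m
  T_fix : ∀ m, T (th m) = th m
  Ph_pow : ∀ m, Ph (th m) = th m ^ q
  rel : ∀ x, Ph (T x) = (T ^ q) (Ph x)
  ne_zero : ∀ x ∈ U, x ≠ 0
  mul : ∀ x ∈ U, ∀ y ∈ U, x * y ∈ U
  inv : ∀ x ∈ U, x⁻¹ ∈ U
  T_mem : ∀ x ∈ U, T x ∈ U
  root : ∀ x ∈ U, ∀ m, ∃ y, y ^ l ^ m = x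
  of_pow : ∀ y m, y ^ l ^ m ∈ U → y ∈ U
  one_sub : ∀ x ∈ U, ∀ m, 1 - x ^ l ^ m ∈ U → ∀ i : ℤ, 1 - th m ^ i * x ∈ U
  const : ∀ (m : ℕ) (i : ℤ), th m ^ i ≠ 1 → th m ^ i - 1 ∈ U ∧
    ∀ k y, y ^ l ^ k = th m ^ i - 1 → T y = y

/-- `T` acts on the `l ^ m`-th roots of `x` as the multiplication with `th m ^ j` -/
def Ex {M : Type} [Field M] (T : M ≃+* M) (th : ℕ → M) (l m : ℕ) (x : M) (j : ℤ) : Prop :=
  ∀ y, y ^ l ^ m = x → T y = th m ^ j * y

/-- EX: existence, uniqueness, products, lower levels -/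
def S_EX : Prop :=
  ∀ (M : Type) [Field M] (l q : ℕ) (th : ℕ → M) (T Ph : M ≃+* M) (U : Set M),
    Tame M l q th T Ph U → ∀ S : M ≃+* M, (∀ m, S (th m) = th m) →
    (∀ x ∈ U, S x = x → ∀ m, ∃ j, Ex S th l m x j) ∧
    (∀ x ∈ U, ∀ m j j', Ex S th l m x j → Ex S th l m x j' → (l : ℤ) ^ m ∣ j - j') ∧
    (∀ x ∈ U, ∀ m j j', (l : ℤ) ^ m ∣ j - j' → Ex S th l m x j → Ex S th l m x j') ∧
    (∀ x ∈ U, ∀ y ∈ U, ∀ m i j, Ex S th l m x i → Ex S th l m y j → Ex S th l m (x * y) (i + j)) ∧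
    (∀ x ∈ U, ∀ m i, Ex S th l m x i → Ex S th l m x⁻¹ (-i)) ∧
    (∀ x ∈ U, ∀ m k i, Ex S th l (m + k) x i → Ex S th l m x i)

/-- POW: powers of the Frobenius element -/
def S_POW : Prop :=
  ∀ (M : Type) [Field M] (l q : ℕ) (th : ℕ → M) (T Ph : M ≃+* M) (U : Set M),
    Tame M l q th T Ph U → ∀ f : ℕ, 0 < f → Tame M l (q ^ f) th T (Ph ^ f) U

/-- FROB: a power of the Frobenius element which fixes a root and roots of unity -/
def S_FROB : Prop :=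
  ∀ (M : Type) [Field M] (l q : ℕ) (th : ℕ → M) (T Ph : M ≃+* M) (U : Set M),
    Tame M l q th T Ph U → ∀ (m k : ℕ) (z y : M), z ≠ 0 → y ^ l ^ m = z → Ph z = z →
    ∃ f : ℕ, 0 < f ∧ (Ph ^ f) y = y ∧ l ^ k ∣ q ^ f - 1

/-- ORB: `1 - z` is the product of the `1 - th m ^ i * y`, which are permuted by `T` -/
def S_ORB : Prop :=
  ∀ (M : Type) [Field M] (l q : ℕ) (th : ℕ → M) (T Ph : M ≃+* M) (U : Set M),
    Tame M l q th T Ph U → ∀ (r m k : ℕ) (α b : ℤ) (z y : M), r ≤ m → ¬ (l : ℤ) ∣ α →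
    z ∈ U → 1 - z ∈ U → T z = z → y ^ l ^ m = z → Ex T th l m z (l ^ r * α) →
    Ex T th l k (1 - z) b →
    ∃ J : ℕ → ℤ, (∀ i < l ^ r, Ex (T ^ l ^ (m - r)) th l k (1 - th m ^ i * y) (J i)) ∧
      (l : ℤ) ^ k ∣ b - ∑ i ∈ Finset.range (l ^ r), J i

/-- K1: the quotient `x = (1 - th m ^ a * y) / (1 - y)`, with a root `x'` -/
def S_K1 : Prop :=
  ∀ (M : Type) [Field M] (l q : ℕ) (th : ℕ → M) (T Ph : M ≃+* M) (U : Set M),
    Tame M l q th T Ph U → ∀ (r m K : ℕ) (α j : ℤ) (z y : M), r < m → m ≤ K → ¬ (l : ℤ) ∣ α →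
    z ∈ U → 1 - z ∈ U → T z = z → y ^ l ^ m = z → Ph y = y → l ^ K ∣ q - 1 →
    Ex T th l m z (l ^ r * α) → Ex (T ^ l ^ (m - r)) th l K (1 - y) j →
    ∃ x' ∈ U, (T ^ l ^ (m - r)) x' = x' ∧ Ph x' = th K ^ (j * ((q - 1) / l ^ (m - r) : ℕ)) * x' ∧
      1 - x' ^ l ^ K = (th m ^ ((l : ℤ) ^ r * α) - 1) * y * (1 - y)⁻¹

/-- K2: the exponent of `1 - x' ^ l ^ K` is divisible by the order of the action on `x'` -/
def S_K2 : Prop :=
  ∀ (M : Type) [Field M] (l q : ℕ) (th : ℕ → M) (T Ph : M ≃+* M) (U : Set M),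
    Tame M l q th T Ph U → ∀ (n K d : ℕ) (c e : ℤ) (x' : M), x' ∈ U → 1 - x' ^ l ^ K ∈ U →
    (T ^ n) x' = x' → Ph x' = th K ^ c * x' → l ^ K ∣ q - 1 → d ≤ K →
    ¬ (l : ℤ) ^ (K + 1 - d) ∣ c → Ex (T ^ n) th l K (1 - x' ^ l ^ K) e → (l : ℤ) ^ d ∣ e

/-- K3: the exponent of `(th m ^ a - 1) * y / (1 - y)` is `α - j` -/
def S_K3 : Prop :=
  ∀ (M : Type) [Field M] (l q : ℕ) (th : ℕ → M) (T Ph : M ≃+* M) (U : Set M),
    Tame M l q th T Ph U → ∀ (r m K : ℕ) (α j : ℤ) (z y : M), r < m → ¬ (l : ℤ) ∣ α →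
    z ∈ U → 1 - z ∈ U → T z = z → y ^ l ^ m = z → Ex T th l (m + K) z (l ^ r * α) →
    Ex (T ^ l ^ (m - r)) th l K (1 - y) j →
    Ex (T ^ l ^ (m - r)) th l K ((th m ^ ((l : ℤ) ^ r * α) - 1) * y * (1 - y)⁻¹) (α - j)

/-- KEY: the exponents of `1 - y` -/
def S_KEY : Prop :=
  ∀ (M : Type) [Field M] (l q : ℕ) (th : ℕ → M) (T Ph : M ≃+* M) (U : Set M),
    Tame M l q th T Ph U → ∀ (r m k : ℕ) (α : ℕ → ℤ) (j : ℤ) (z y : M), r < m → m ≤ k →
    (∀ i, ¬ (l : ℤ) ∣ α i) → z ∈ U → 1 - z ∈ U → T z = z → Ph z = z → y ^ l ^ m = z →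
    (∀ i, Ex T th l i z (l ^ r * α i)) → Ex (T ^ l ^ (m - r)) th l k (1 - y) j →
    (l : ℤ) ^ (m - r) ∣ j ∨ (l : ℤ) ^ (m - r) ∣ j - α m

/-- FIN: the shape -/
def S_FIN : Prop :=
  ∀ (M : Type) [Field M] (l q : ℕ) [Fact l.Prime] (th : ℕ → M) (T Ph : M ≃+* M) (U : Set M),
    Tame M l q th T Ph U → ∀ z : M, z ∈ U → 1 - z ∈ U → T z = z → Ph z = z →
    ∃ a b : ℤ_[l], (a = 0 ∨ b = 0 ∨ a = b) ∧
      (∀ (m : ℕ) (j : ℤ), (l : ℤ_[l]) ^ m ∣ (j : ℤ_[l]) - a → Ex T th l m z j) ∧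
      ∀ (m : ℕ) (j : ℤ), (l : ℤ_[l]) ^ m ∣ (j : ℤ_[l]) - b → Ex T th l m (1 - z) j

/-! ### sections -/

/-- `z` is a unit over the curve with the valuation rings `U` -/
def UnitOver {F M : Type} [Field F] [Field M] [Algebra F M] (U : Set (ValuationSubring F)) (z : M) :
    Prop :=
  ∀ W : ValuationSubring M, W.comap (algebraMap F M) ∈ U → z ∈ W ∧ z⁻¹ ∈ W

/-- `M` contains all roots of its units over the curve with the valuation rings `U` -/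
def RootClosed {F : Type} (M : Type) [Field F] [Field M] [Algebra F M]
    (U : Set (ValuationSubring F)) : Prop :=
  ∀ a : M, a ≠ 0 → UnitOver U a → ∀ n : ℕ, 0 < n → ∃ w : M, w ^ n = a

/-- `t` is in the inertia group of the valuation ring `V` -/
def Inertia {K B : Type} [Field K] [Field B] [Algebra K B] (V : ValuationSubring B)
    (t : B ≃ₐ[K] B) : Prop :=
  ∀ x ∈ V, t x - x ∈ V.nonunits

/-- `f` is a Frobenius element of the valuation ring `V`, with exponent `q` -/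
def Frob {K B : Type} [Field K] [Field B] [Algebra K B] (V : ValuationSubring B) (q : ℕ)
    (f : B ≃ₐ[K] B) : Prop :=
  ∀ x ∈ V, f x - x ^ q ∈ V.nonunits

/-- `g` is in the wild inertia group of the valuation ring `V` -/
def Wild {K B : Type} [Field K] [Field B] [Algebra K B] (V : ValuationSubring B)
    (g : B ≃ₐ[K] B) : Prop :=
  ∀ x : B, x ≠ 0 → g x / x - 1 ∈ V.nonunits

/-- PP: wild inertia is a pro-`p`-group -/
def S_PP : Prop :=
  ∀ (K B : Type) [Field K] [Field B] [CharZero K] [Algebra K B] [IsAlgClosure K B]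
    (V : ValuationSubring B) (p : ℕ), p.Prime → (p : B) ∈ V.nonunits →
    ∀ g : B ≃ₐ[K] B, Wild V g → ∀ L : IntermediateField K B, FiniteDimensional K L → Normal K L →
      ∃ i : ℕ, ∀ x ∈ L, (g ^ p ^ i) x = x

/-- WN: wild inertia is a group which is normalised by the inertia and Frobenius elements -/
def S_WN : Prop :=
  ∀ (K B : Type) [Field K] [Field B] [CharZero K] [Algebra K B] [IsAlgClosure K B]
    (V : ValuationSubring B) (q : ℕ) (t f : B ≃ₐ[K] B), Inertia V t → Frob V q f →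
    (∀ g h : B ≃ₐ[K] B, Wild V g → Wild V h → Wild V (g * h)) ∧
    (∀ g : B ≃ₐ[K] B, Wild V g → Wild V g⁻¹) ∧
    (∀ g : B ≃ₐ[K] B, Wild V g → Wild V (t * g * t⁻¹) ∧ Wild V (t⁻¹ * g * t) ∧
      Wild V (f * g * f⁻¹) ∧ Wild V (f⁻¹ * g * f))

/-- RU: the action on the roots of unity and on the roots of `zeta - 1` -/
def S_RU : Prop :=
  ∀ (K B : Type) [Field K] [Field B] [CharZero K] [Algebra K B] [IsAlgClosure K B]
    (V : ValuationSubring B) (p l q : ℕ) (t f : B ≃ₐ[K] B), p.Prime → l.Prime → p ≠ l →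
    (p : B) ∈ V.nonunits → Inertia V t → Frob V q f →
    (∀ (m : ℕ) (x : B), x ^ l ^ m = 1 → t x = x ∧ f x = x ^ q) ∧
    (∀ (m k : ℕ) (x y : B), x ^ l ^ m = 1 → x ≠ 1 → y ^ l ^ k = x - 1 → t y = y) ∧
    ∀ g : B ≃ₐ[K] B, Wild V g → ∀ (m : ℕ) (x : B), x ^ l ^ m = 1 → g x = x

/-- the subfield of the elements fixed by the `s g`, `g` wild -/
def fixW {K F M B : Type} [Field K] [Field F] [Field M] [Field B] [Algebra F M] [Algebra K M]
    [Algebra K B] (s : GalSection K F M B) (V : ValuationSubring B) : Subfield M where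
  carrier := {x | ∀ g : B ≃ₐ[K] B, Wild V g → s.s g x = x}
  mul_mem' := fun ha hb g hg => by rw [map_mul, ha g hg, hb g hg]
  one_mem' := fun g _ => map_one _
  add_mem' := fun ha hb g hg => by rw [map_add, ha g hg, hb g hg]
  zero_mem' := fun g _ => map_zero _
  neg_mem' := fun ha g hg => by rw [map_neg, ha g hg]
  inv_mem' := fun _ ha g hg => by rw [map_inv₀, ha g hg]

/-- TR: the abstract situation for a section -/
def S_TR : Prop :=
  ∀ (K F M B : Type) [Field K] [Field F] [Field M] [Field B] [CharZero K] [Algebra K F]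
    [Algebra F M] [Algebra K M] [IsScalarTower K F M] [Algebra.IsAlgebraic F M] [Algebra K B]
    [IsAlgClosure K B] (U : Set (ValuationSubring F)), (∀ O ∈ U, ∀ c : K, algebraMap K F c ∈ O) →
    RootClosed M U → ∀ (s : GalSection K F M B) (V : ValuationSubring B) (p l q : ℕ), p.Prime →
    l.Prime → p ≠ l → 2 ≤ q → (p : B) ∈ V.nonunits → ∀ t f : B ≃ₐ[K] B, Inertia V t → Frob V q f →
    Wild V (f * t * f⁻¹ * (t ^ q)⁻¹) → ∀ th : ℕ → B, (∀ m, IsPrimitiveRoot (th m) (l ^ m)) →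
    (∀ m, th (m + 1) ^ l = th m) →
    ∃ (th' : ℕ → fixW s V) (T Ph : fixW s V ≃+* fixW s V),
      (∀ m, (th' m : M) = s.j (th m)) ∧ (∀ x : fixW s V, (T x : M) = s.s t x) ∧
      (∀ x : fixW s V, (Ph x : M) = s.s f x) ∧
      (∀ (x : M) (m : ℕ), x ≠ 0 → x ^ l ^ m ∈ fixW s V → x ∈ fixW s V) ∧
      Tame (fixW s V) l q th' T Ph {x | (x : M) ≠ 0 ∧ UnitOver U (x : M)}

/-- the theorem -/
def S_MAIN : Prop :=
  ∀ (K F M B : Type) [Field K] [Field F] [Field M] [Field B] [CharZero K] [Algebra K F]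
    [Algebra F M] [Algebra K M] [IsScalarTower K F M] [Algebra.IsAlgebraic F M] [Algebra K B]
    [IsAlgClosure K B] (U : Set (ValuationSubring F)), (∀ O ∈ U, ∀ c : K, algebraMap K F c ∈ O) →
    RootClosed M U → ∀ (s : GalSection K F M B) (V : ValuationSubring B) (p l q : ℕ)
    [Fact l.Prime], p.Prime → p ≠ l → 2 ≤ q → (p : B) ∈ V.nonunits →
    ∀ t f : B ≃ₐ[K] B, Inertia V t → Frob V q f → Wild V (f * t * f⁻¹ * (t ^ q)⁻¹) →
    ∀ th : ℕ → B, (∀ m, IsPrimitiveRoot (th m) (l ^ m)) → (∀ m, th (m + 1) ^ l = th m) →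
    ∀ z : M, z ≠ 0 → z ≠ 1 → UnitOver U z → UnitOver U (1 - z) →
    (∀ g, s.s g z = z) →
    ∃ a b : ℤ_[l], (a = 0 ∨ b = 0 ∨ a = b) ∧
      (∀ (m : ℕ) (j : ℤ), (l : ℤ_[l]) ^ m ∣ (j : ℤ_[l]) - a → ∀ y : M, y ^ l ^ m = z →
        s.s t y = s.j (th m) ^ j * y) ∧
      ∀ (m : ℕ) (j : ℤ), (l : ℤ_[l]) ^ m ∣ (j : ℤ_[l]) - b → ∀ y : M, y ^ l ^ m = 1 - z →
        s.s t y = s.j (th m) ^ j * y

end Pool.Agent.U36.TS
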