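import Pool.Agent.U36.TS.Asm
import Pool.Agent.U36.TS.Stm3
import Pool.Agent.U36.TS.PT
import Pool.Agent.U696.TS.EX
import Pool.Agent.U324.TS.POW
import Pool.Agent.U491.TS.FROB
import Pool.Agent.U780.TS.ORB
import Pool.Agent.U891.TS.K1
import Pool.Agent.U784.TS.K2
import Pool.Agent.U689.TS.K3
import Pool.Agent.U559.TS.KEY
import Pool.Agent.U744.TS.FIN
import Pool.Agent.U624.TS.PP
import Pool.Agent.U591.TS.WN
import Pool.Agent.U156.TS.RU
import Pool.Agent.U978.TS.TR
import Pool.Agent.U261.TS.N1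
import Pool.Agent.U438.TS.RE

/-!
The parts of the theorem on the tame ramification of sections.
-/

set_option autoImplicit false

namespace Pool.Agent.U36.TS

theorem key_all : S_KEY := t_KEY t_EX t_POW t_FROB t_K1 (t_K2 t_EX) (t_K3 t_EX)

theorem fin_all : S_FIN := t_FIN t_EX (t_ORB t_EX) key_all

theorem tr_all : S_TR :=
  Pool.Agent.U978.TS.t_TR Pool.Agent.U624.TS.t_PP Pool.Agent.U591.TS.t_WN t_RU

theorem n1_all : S_N1 := t_N1 t_EX (t_ORB t_EX) key_all Pool.Agent.U36.TS.Own.t_PT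

theorem main_all : S_MAIN := main_of fin_all tr_all

theorem re_all : S_RE := t_RE

end Pool.Agent.U36.TS
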