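import Pool.Agent.U36.TS.Stm2
import Pool.Agent.U784.TS.K2

set_option autoImplicit false

namespace Pool.Agent.U36.TS.Own

open Finset

theorem t_N2 (hEX : S_EX) (hPOW : S_POW) (hFROB : S_FROB) (hK2 : S_K2) (hN1 : S_N1) : S_N2 := by
  intro M _ l q th T Ph U H r α z hα hz h1z hTz hPz hEz hE1 k
  have hl := H.prime
  have hl0 : 0 < l := hl.pos
  have hθ0 : ∀ m, th m ≠ 0 := fun m => (H.prim m).ne_zero (pow_pos hl0 m).ne'
  obtain ⟨y0, hy0⟩ := H.root z hz (2 * r + 1)
  have hz0 := H.ne_zero z hz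
  obtain ⟨f, hf, hfy, hfq⟩ := hFROB M l q th T Ph U H (2 * r + 1) (max k (2 * r + 1)) z y0 hz0 hy0 hPz
  have H' := hPOW M l q th T Ph U H f hf
  have hq1 : q ^ f - 1 ≠ 0 := by
    have h1 : 1 < q ^ f := Nat.one_lt_pow hf.ne' (by have := H.two; omega)
    omega
  haveI : Fact l.Prime := ⟨hl⟩
  obtain ⟨K, hK⟩ : ∃ K, K = padicValNat l (q ^ f - 1) := ⟨_, rfl⟩
  have hKd : l ^ K ∣ q ^ f - 1 := hK ▸ pow_padicValNat_dvd
  have hKn : ¬ l ^ (K + 1) ∣ q ^ f - 1 := hK ▸ pow_succ_padicValNat_not_dvd hq1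
  have hKm : max k (2 * r + 1) ≤ K := by
    rw [hK]
    exact (padicValNat_dvd_iff_le hq1).1 hfq
  have hkK : k ≤ K := (le_max_left _ _).trans hKm
  have hmK : 2 * r + 1 ≤ K := (le_max_right _ _).trans hKm
  have hy0U : y0 ∈ U := H.of_pow y0 _ (by rw [hy0]; exact hz)
  -- roots of unity fixed by Ph ^ f
  have hPθ : ∀ m ≤ K, (Ph ^ f) (th m) = th m := by
    intro m hm
    rw [H'.Ph_pow]
    have h1 : l ^ m ∣ q ^ f - 1 := (pow_dvd_pow l hm).trans hKd
    have h2 : th m ^ (q ^ f - 1) = 1 := (H.prim m).pow_eq_one_iff_dvd _ |>.2 h1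
    have h3 : q ^ f = (q ^ f - 1) + 1 := by omega
    rw [h3, pow_succ, h2, one_mul]
  have hTz' : ∀ (n : ℕ) (x : M), T x = x → (T ^ n) x = x := by
    intro n x hx
    induction n with
    | zero => rfl
    | succ n ih => rw [pow_succ, RingAut.mul_apply, hx, ih]
  -- the factors
  have key : ∀ i : ℕ, ∃ g : M, g ^ l ^ K = 1 - th (2 * r + 1) ^ i * y0 ∧ (Ph ^ f) g = g := by
    intro i
    set y := th (2 * r + 1) ^ i * y0 with hy
    have hym : y ^ l ^ (2 * r + 1) = z := by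
      rw [hy, mul_pow, ← pow_mul, mul_comm i, pow_mul, (H.prim _).pow_eq_one, one_pow, one_mul, hy0]
    have hyU : y ∈ U := H.of_pow y _ (by rw [hym]; exact hz)
    have h1y : 1 - y ∈ U := by
      have h1 := H.one_sub y0 hy0U (2 * r + 1) (by rw [hy0]; exact h1z) i
      rwa [zpow_natCast] at h1
    have hS0 := hN1 M l q th T Ph U H r (2 * r + 1) α z y (by omega) hα hz h1z hTz hPz hym hEz hE1 K
    obtain ⟨g, hg⟩ := H.root _ h1y K
    have hSg : (T ^ l ^ (2 * r + 1 - r)) g = g := by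
      have h1 := hS0 g hg
      rwa [zpow_zero, one_mul] at h1
    have hgU : g ∈ U := H.of_pow g K (by rw [hg]; exact h1y)
    have hPy : (Ph ^ f) y = y := by
      rw [hy, map_mul, map_pow, hPθ _ hmK, hfy]
    have hPg : ((Ph ^ f) g / g) ^ l ^ K = 1 := by
      rw [div_pow, ← map_pow, hg, map_sub, map_one, hPy, div_self (H.ne_zero _ h1y)]
    obtain ⟨c, -, hc⟩ := (H.prim K).eq_pow_of_pow_eq_one hPg
    have hg0 := H.ne_zero g hgU
    have hPg' : (Ph ^ f) g = th K ^ (c : ℤ) * g := by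
      rw [zpow_natCast, hc, div_mul_cancel₀ _ hg0]
    by_cases hcK : (l : ℤ) ^ K ∣ (c : ℤ)
    · refine ⟨g, hg, ?_⟩
      rw [hPg', zpow_natCast]
      have h1 : l ^ K ∣ c := by exact_mod_cast hcK
      rw [((H.prim K).pow_eq_one_iff_dvd c).2 h1, one_mul]
    · exfalso
      have hEy : Ex (T ^ l ^ (2 * r + 1 - r)) th l K (1 - g ^ l ^ K) (α (2 * r + 1 + K)) := by
        intro w hw
        rw [hg, sub_sub_cancel] at hw
        have h1 : w ^ l ^ (2 * r + 1 + K) = z := by
          rw [add_comm, pow_add, pow_mul, hw, hym]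
        have h2 := hEz (2 * r + 1 + K) w h1
        have h3 : ∀ n : ℕ, (T ^ n) w = (th (2 * r + 1 + K) ^ ((l : ℤ) ^ r * α (2 * r + 1 + K))) ^ n * w := by
          intro n
          induction n with
          | zero => simp
          | succ n ih =>
            rw [pow_succ, RingAut.mul_apply, h2, map_mul, ih, map_zpow₀, hTz' n _ (H.T_fix _), pow_succ]
            ring
        rw [h3, ← zpow_natCast, ← zpow_mul]
        congr 1
        have h4 : th (2 * r + 1 + K) ^ l ^ (2 * r + 1) = th K := by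
          have : ∀ n, th (n + K) ^ l ^ n = th K := by
            intro n
            induction n with
            | zero => simp
            | succ n ih => rw [show n + 1 + K = (n + K) + 1 by ring, pow_succ', pow_mul, H.comp, ih]
          exact this _
        rw [← h4, ← zpow_natCast, ← zpow_mul]
        congr 1
        have h5 : ((l ^ (2 * r + 1) : ℕ) : ℤ) = (l : ℤ) ^ r * ((l ^ (2 * r + 1 - r) : ℕ) : ℤ) := by
          push_cast
          rw [← pow_add]
          congr 1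
          omega
        rw [h5]
        ring
      have h6 := hK2 M l (q ^ f) th T (Ph ^ f) U H' (l ^ (2 * r + 1 - r)) K 1 c _ g hgU
        (by rw [hg, sub_sub_cancel]; exact hyU) hSg hPg' hKd (by omega)
        (by simpa using hcK) hEy
      rw [pow_one] at h6
      exact hα _ h6
  choose g hg hPg using key
  obtain ⟨G, hG⟩ : ∃ G, G = ∏ i ∈ range (l ^ (2 * r + 1)), g i := ⟨_, rfl⟩
  have hGpow : G ^ l ^ K = 1 - z := by
    rw [hG, ← prod_pow]
    have h1 := Pool.Agent.U36.TS.K2.prod_eq (pow_pos hl0 (2 * r + 1)) (H.prim (2 * r + 1)) y0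
    rw [hy0] at h1
    rw [← h1]
    refine prod_congr rfl fun i _ => ?_
    rw [hg, zpow_natCast]
  have hTG : T G = G := by
    have h1 := hE1 K G hGpow
    rwa [zpow_zero, one_mul] at h1
  have hPG : (Ph ^ f) G = G := by
    rw [hG, map_prod]
    exact prod_congr rfl fun i _ => hPg i
  have hG0 : G ≠ 0 := by
    rintro rfl
    rw [zero_pow (pow_pos hl0 K).ne'] at hGpow
    exact H.ne_zero _ h1z hGpow.symm
  have hc1 : (Ph G / G) ^ l ^ K = 1 := by
    rw [div_pow, ← map_pow, hGpow, map_sub, map_one, hPz, div_self (H.ne_zero _ h1z)]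
  obtain ⟨c, -, hc⟩ := (H.prim K).eq_pow_of_pow_eq_one hc1
  have hc' : Ph G = th K ^ c * G := by
    rw [hc, div_mul_cancel₀ _ hG0]
  have hPn : ∀ n : ℕ, (Ph ^ n) G = th K ^ (c * ∑ i ∈ range n, q ^ i) * G := by
    intro n
    induction n with
    | zero => simp
    | succ n ih =>
      rw [pow_succ', RingAut.mul_apply, ih, map_mul, map_pow, H.Ph_pow, hc', ← mul_assoc, ← pow_mul,
        ← pow_add]
      congr 2
      rw [sum_range_succ']
      simp only [pow_succ, pow_zero, ← sum_mul]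
      ring
  have hσ : l ^ K ∣ c * ∑ i ∈ range f, q ^ i := by
    rw [← (H.prim K).pow_eq_one_iff_dvd]
    have h1 := hPn f
    rw [hPG] at h1
    exact (mul_right_cancel₀ hG0 (by rw [one_mul]; exact h1)).symm
  obtain ⟨u, hu⟩ := hKd
  have hlu : ¬ l ∣ u := by
    rintro ⟨v, rfl⟩
    exact hKn ⟨v, by rw [hu, pow_succ]; ring⟩
  obtain ⟨w, hw⟩ := hσ
  have hgeom : (∑ i ∈ range f, q ^ i) * (q - 1) = q ^ f - 1 := by
    have h1 := Nat.geomSum_eq H.two f
    have h2 : (q - 1) ∣ q ^ f - 1 := by simpa using Nat.sub_dvd_pow_sub_pow q 1 f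
    rw [h1, Nat.div_mul_cancel h2]
  have hcu : c * u = (q - 1) * w := by
    have h1 : l ^ K * (c * u) = l ^ K * ((q - 1) * w) := by
      calc l ^ K * (c * u) = c * (l ^ K * u) := by ring
        _ = c * (q ^ f - 1) := by rw [hu]
        _ = (c * ∑ i ∈ range f, q ^ i) * (q - 1) := by rw [← hgeom]; ring
        _ = l ^ K * w * (q - 1) := by rw [hw]
        _ = _ := by ring
    exact Nat.eq_of_mul_eq_mul_left (pow_pos hl0 K) h1
  -- inverse of u modulo l ^ K
  have hcop : Nat.Coprime u (l ^ K) := (Nat.Coprime.pow_left K ((hl.coprime_iff_not_dvd).2 hlu)).symm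
  obtain ⟨u', hu'⟩ : ∃ u' : ℤ, (l : ℤ) ^ K ∣ u * u' - 1 := by
    have h1 : IsCoprime (u : ℤ) ((l : ℤ) ^ K) := by
      have := Nat.isCoprime_iff_coprime.2 hcop
      exact_mod_cast this
    obtain ⟨a, b, hab⟩ := h1
    exact ⟨a, ⟨-b, by linear_combination hab⟩⟩
  have hq1' : ((q - 1 : ℕ) : ℤ) = q - 1 := by
    have := H.two
    push_cast [Nat.cast_sub (show 1 ≤ q by omega)]
    ring
  have hx : (l : ℤ) ^ K ∣ (q - 1) * (-(w * u')) + c := by
    have h1 : (c : ℤ) * u = (q - 1) * w := by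
      rw [← hq1']
      exact_mod_cast hcu
    obtain ⟨e, he⟩ := hu'
    refine ⟨-(c * e), ?_⟩
    linear_combination u' * h1 - c * he
  obtain ⟨e, he⟩ := hx
  have hzp : ∀ n : ℤ, Ph (th K ^ n) = th K ^ (q * n) := by
    intro n
    rw [map_zpow₀, H.Ph_pow, ← zpow_natCast, ← zpow_mul]
  have hG'P : Ph (th K ^ (-(w * u') : ℤ) * G) = th K ^ (-(w * u') : ℤ) * G := by
    rw [map_mul, hzp, hc', ← mul_assoc, ← zpow_natCast, ← zpow_add₀ (hθ0 K)]
    congr 1
    have h1 : (q : ℤ) * (-(w * u')) + c = -(w * u') + (l ^ K : ℕ) * e := by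
      push_cast
      linear_combination he
    rw [h1, zpow_add₀ (hθ0 K), zpow_mul, zpow_natCast, (H.prim K).pow_eq_one, one_zpow, mul_one]
  refine ⟨(th K ^ (-(w * u') : ℤ) * G) ^ l ^ (K - k), ?_, ?_, ?_⟩
  · have e1 : (th K ^ (-(w * u') : ℤ)) ^ l ^ K = 1 := by
      rw [← zpow_natCast, ← zpow_mul, mul_comm, zpow_mul, zpow_natCast, (H.prim K).pow_eq_one,
        one_zpow]
    rw [← pow_mul, ← pow_add, Nat.sub_add_cancel hkK, mul_pow, hGpow, e1, one_mul]
  · rw [map_pow, map_mul, hTG, map_zpow₀, H.T_fix]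
  · rw [map_pow, hG'P]

end Pool.Agent.U36.TS.Own
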