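import Pool.Agent.U36.TS.Asm2
import Pool.Agent.U36.TS.All1
import Pool.Agent.U36.TS.N2
import Pool.Agent.U187.TS.FIN2

/-!
All parts of the theorem on the tame ramification of sections.
-/

set_option autoImplicit false

namespace Pool.Agent.U36.TS

theorem n2_all : S_N2 :=
  Pool.Agent.U36.TS.Own.t_N2 t_EX t_POW t_FROB (t_K2 t_EX) n1_all

theorem fin2_all : S_FIN2 := t_FIN2 fin_all t_EX n2_all

theorem main2_all : S_MAIN2 := main2_of fin2_all tr_all

end Pool.Agent.U36.TS
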