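import Pool.Agent.U36.TS.All
import Pool.Agent.U36.TS.Asm4
import Pool.Agent.U36.TS.TR4

/-!
All parts of the theorem on the tame ramification of sections, third form.
-/

set_option autoImplicit false

namespace Pool.Agent.U36.TS

theorem main4_all : S_MAIN4 :=
  main4_of fin2_all (Pool.Agent.U36.TS.Four.t_TR4 Pool.Agent.U624.TS.t_PP
    Pool.Agent.U591.TS.t_WN t_RU)

end Pool.Agent.U36.TS
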