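import Pool.Agent.U36.TS.Stm

/-!
Assembly: `S_FIN` and `S_TR` give the theorem.
-/

set_option autoImplicit false

namespace Pool.Agent.U36.TS

open Pool.Agent.TH954

theorem main_of (hF : S_FIN) (hT : S_TR) : S_MAIN := by
  intro K F M B _ _ _ _ _ _ _ _ _ _ _ _ U hU hR s V p l q _ hp hpl hq hpV t f ht hf hw th hth hth'
    z hz0 hz1 hz hz' hfix
  obtain ⟨th', T, Ph, h1, h2, h3, h4, h5⟩ := hT K F M B U hU hR s V p l q hp Fact.out hpl hq hpV t f
    ht hf hw th hth hth'
  have hzW : z ∈ fixW s V := fun g _ => hfix g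
  let z' : fixW s V := ⟨z, hzW⟩
  have hz'0 : (1 : M) - z ≠ 0 := sub_ne_zero.2 (Ne.symm hz1)
  have e1 : z' ∈ {x : fixW s V | (x : M) ≠ 0 ∧ UnitOver U (x : M)} := ⟨hz0, hz⟩
  have e2 : 1 - z' ∈ {x : fixW s V | (x : M) ≠ 0 ∧ UnitOver U (x : M)} := by
    refine ⟨?_, ?_⟩
    · simpa [z'] using hz'0
    · simpa [z'] using hz'
  have e3 : T z' = z' := by
    apply Subtype.ext
    rw [h2]
    exact hfix t
  have e4 : Ph z' = z' := by
    apply Subtype.ext
    rw [h3]
    exact hfix f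
  obtain ⟨a, b, hab, ha, hb⟩ := hF (fixW s V) l q th' T Ph _ h5 z' e1 e2 e3 e4
  refine ⟨a, b, hab, fun m j hj y hy => ?_, fun m j hj y hy => ?_⟩
  · have hy0 : y ≠ 0 := by
      rintro rfl
      rw [zero_pow (pow_ne_zero m (Fact.out : l.Prime).ne_zero)] at hy
      exact hz0 hy.symm
    have hyW : y ∈ fixW s V := h4 y m hy0 (by rw [hy]; exact hzW)
    have k1 := ha m j hj ⟨y, hyW⟩ (Subtype.ext (by simpa [z'] using hy))
    have k2 := congrArg (fun x : fixW s V => (x : M)) k1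
    simp only [h2] at k2
    rw [k2, ← h1]
    have k3 : ((th' m ^ j : fixW s V) : M) = (th' m : M) ^ j :=
      map_zpow₀ (fixW s V).subtype (th' m) j
    rw [← k3]
    rfl
  · have hy0 : y ≠ 0 := by
      rintro rfl
      rw [zero_pow (pow_ne_zero m (Fact.out : l.Prime).ne_zero)] at hy
      exact hz'0 hy.symm
    have hyW : y ∈ fixW s V := h4 y m hy0 (by
      rw [hy]
      exact sub_mem (one_mem _) hzW)
    have k1 := hb m j hj ⟨y, hyW⟩ (Subtype.ext (by simpa [z'] using hy))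
    have k2 := congrArg (fun x : fixW s V => (x : M)) k1
    simp only [h2] at k2
    rw [k2, ← h1]
    have k3 : ((th' m ^ j : fixW s V) : M) = (th' m : M) ^ j :=
      map_zpow₀ (fixW s V).subtype (th' m) j
    rw [← k3]
    rfl

end Pool.Agent.U36.TS
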