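import Pool.Agent.U36.TS.Stm2

/-!
Assembly of the second form: `S_FIN2` and `S_TR` give the theorem.
-/

set_option autoImplicit false

namespace Pool.Agent.U36.TS

open Pool.Agent.TH954

/-- the theorem, second form -/
def S_MAIN2 : Prop :=
  ∀ (K F M B : Type) [Field K] [Field F] [Field M] [Field B] [CharZero K] [Algebra K F]
    [Algebra F M] [Algebra K M] [IsScalarTower K F M] [Algebra.IsAlgebraic F M] [Algebra K B]
    [IsAlgClosure K B] (U : Set (ValuationSubring F)), (∀ O ∈ U, ∀ c : K, algebraMap K F c ∈ O) →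
    RootClosed M U → ∀ (s : GalSection K F M B) (V : ValuationSubring B) (p l q : ℕ)
    [Fact l.Prime], p.Prime → p ≠ l → 2 ≤ q → (p : B) ∈ V.nonunits →
    ∀ t f : B ≃ₐ[K] B, Inertia V t → Frob V q f → Wild V (f * t * f⁻¹ * (t ^ q)⁻¹) →
    ∀ th : ℕ → B, (∀ m, IsPrimitiveRoot (th m) (l ^ m)) → (∀ m, th (m + 1) ^ l = th m) →
    ∀ z : M, z ≠ 0 → z ≠ 1 → UnitOver U z → UnitOver U (1 - z) →
    (∀ g, s.s g z = z) →
    ∃ a b : ℤ_[l],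
      (∀ (m : ℕ) (j : ℤ), (l : ℤ_[l]) ^ m ∣ (j : ℤ_[l]) - a → ∀ y : M, y ^ l ^ m = z →
        s.s t y = s.j (th m) ^ j * y) ∧
      (∀ (m : ℕ) (j : ℤ), (l : ℤ_[l]) ^ m ∣ (j : ℤ_[l]) - b → ∀ y : M, y ^ l ^ m = 1 - z →
        s.s t y = s.j (th m) ^ j * y) ∧
      ((a = 0 ∧ b = 0) ∨
        (a ≠ 0 ∧ b = 0 ∧ ∀ k, ∃ y : M, y ^ l ^ k = 1 - z ∧ s.s t y = y ∧ s.s f y = y) ∨
        (a = 0 ∧ b ≠ 0 ∧ ∀ k, ∃ y : M, y ^ l ^ k = z ∧ s.s t y = y ∧ s.s f y = y) ∨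
        (a ≠ 0 ∧ a = b ∧ ∀ k, ∃ y : M, y ^ l ^ k = 1 - z⁻¹ ∧ s.s t y = y ∧ s.s f y = y))

theorem main2_of (hF : S_FIN2) (hT : S_TR) : S_MAIN2 := by
  intro K F M B _ _ _ _ _ _ _ _ _ _ _ _ U hU hR s V p l q _ hp hpl hq hpV t f ht hf hw th hth hth'
    z hz0 hz1 hz hz' hfix
  obtain ⟨th', T, Ph, h1, h2, h3, h4, h5⟩ := hT K F M B U hU hR s V p l q hp Fact.out hpl hq hpV t f
    ht hf hw th hth hth'
  have hzW : z ∈ fixW s V := fun g _ => hfix g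
  let z' : fixW s V := ⟨z, hzW⟩
  have hz'0 : (1 : M) - z ≠ 0 := sub_ne_zero.2 (Ne.symm hz1)
  have e1 : z' ∈ {x : fixW s V | (x : M) ≠ 0 ∧ UnitOver U (x : M)} := ⟨hz0, hz⟩
  have e2 : 1 - z' ∈ {x : fixW s V | (x : M) ≠ 0 ∧ UnitOver U (x : M)} := by
    refine ⟨?_, ?_⟩
    · simpa [z'] using hz'0
    · simpa [z'] using hz'
  have e3 : T z' = z' := by
    apply Subtype.ext
    rw [h2]
    exact hfix t
  have e4 : Ph z' = z' := by
    apply Subtype.ext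
    rw [h3]
    exact hfix f
  have hl0 : ∀ m : ℕ, l ^ m ≠ 0 := fun m => pow_ne_zero m (Fact.out : l.Prime).ne_zero
  have conv : ∀ (x : fixW s V), (x : M) ≠ 0 → ∀ a : ℤ_[l],
      (∀ (m : ℕ) (j : ℤ), (l : ℤ_[l]) ^ m ∣ (j : ℤ_[l]) - a → Ex T th' l m x j) →
      ∀ (m : ℕ) (j : ℤ), (l : ℤ_[l]) ^ m ∣ (j : ℤ_[l]) - a → ∀ y : M, y ^ l ^ m = x →
        s.s t y = s.j (th m) ^ j * y := by
    intro x hx a ha m j hj y hy
    have hy0 : y ≠ 0 := by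
      rintro rfl
      rw [zero_pow (hl0 m)] at hy
      exact hx hy.symm
    have hyW : y ∈ fixW s V := h4 y m hy0 (by rw [hy]; exact x.2)
    have k1 := ha m j hj ⟨y, hyW⟩ (Subtype.ext (by simpa using hy))
    have k2 := congrArg (fun x : fixW s V => (x : M)) k1
    simp only [h2] at k2
    rw [k2, ← h1]
    have k3 : ((th' m ^ j : fixW s V) : M) = (th' m : M) ^ j :=
      map_zpow₀ (fixW s V).subtype (th' m) j
    rw [← k3]
    rfl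
  have conv2 : ∀ x : fixW s V, (∀ k, ∃ y : fixW s V, y ^ l ^ k = x ∧ T y = y ∧ Ph y = y) →
      ∀ k, ∃ y : M, y ^ l ^ k = (x : M) ∧ s.s t y = y ∧ s.s f y = y := by
    intro x hx k
    obtain ⟨y, hy1, hy2, hy3⟩ := hx k
    refine ⟨y, ?_, ?_, ?_⟩
    · rw [← hy1]
      rfl
    · rw [← h2, hy2]
    · rw [← h3, hy3]
  obtain ⟨a, b, ha, hb, hab⟩ := hF (fixW s V) l q th' T Ph _ h5 z' e1 e2 e3 e4
  have c1 : ((1 - z' : fixW s V) : M) = 1 - z := rfl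
  have c2 : ((1 - z'⁻¹ : fixW s V) : M) = 1 - z⁻¹ := rfl
  refine ⟨a, b, conv z' hz0 a ha, ?_, ?_⟩
  · have h6 := conv (1 - z') (by rw [c1]; exact hz'0) b hb
    rw [c1] at h6
    exact h6
  · rcases hab with h | ⟨g1, g2, g3⟩ | ⟨g1, g2, g3⟩ | ⟨g1, g2, g3⟩
    · exact Or.inl h
    · right; left
      have h7 := conv2 _ g3
      rw [c1] at h7
      exact ⟨g1, g2, h7⟩
    · right; right; left
      exact ⟨g1, g2, conv2 _ g3⟩
    · right; right; right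
      have h7 := conv2 _ g3
      rw [c2] at h7
      exact ⟨g1, g2, h7⟩

end Pool.Agent.U36.TS
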