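import Pool.Agent.U36.TS.Stm

/-!
# Project TSH, second part: near `0` the function `1 - z` is a one-unit
-/

set_option autoImplicit false

namespace Pool.Agent.U36.TS

open Pool.Agent.TH954

/-- PT: powers of `T` -/
def S_PT : Prop :=
  ∀ (M : Type) [Field M] (l q : ℕ) (th : ℕ → M) (T Ph : M ≃+* M) (U : Set M),
    Tame M l q th T Ph U → ∀ n : ℕ, Tame M l q th (T ^ n) Ph U

/-- N1: if the exponent of `1 - z` is zero, and that of `z` is not, then the exponents of the `1 - y`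
are zero -/
def S_N1 : Prop :=
  ∀ (M : Type) [Field M] (l q : ℕ) (th : ℕ → M) (T Ph : M ≃+* M) (U : Set M),
    Tame M l q th T Ph U → ∀ (r m : ℕ) (α : ℕ → ℤ) (z y : M), 2 * r < m →
    (∀ i, ¬ (l : ℤ) ∣ α i) → z ∈ U → 1 - z ∈ U → T z = z → Ph z = z → y ^ l ^ m = z →
    (∀ i, Ex T th l i z (l ^ r * α i)) → (∀ i, Ex T th l i (1 - z) 0) →
    ∀ k, Ex (T ^ l ^ (m - r)) th l k (1 - y) 0

/-- N2: then `1 - z` has roots fixed by `T` and `Ph` -/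
def S_N2 : Prop :=
  ∀ (M : Type) [Field M] (l q : ℕ) (th : ℕ → M) (T Ph : M ≃+* M) (U : Set M),
    Tame M l q th T Ph U → ∀ (r : ℕ) (α : ℕ → ℤ) (z : M),
    (∀ i, ¬ (l : ℤ) ∣ α i) → z ∈ U → 1 - z ∈ U → T z = z → Ph z = z →
    (∀ i, Ex T th l i z (l ^ r * α i)) → (∀ i, Ex T th l i (1 - z) 0) →
    ∀ k, ∃ y : M, y ^ l ^ k = 1 - z ∧ T y = y ∧ Ph y = y

/-- FIN2: the shape, with the second part -/
def S_FIN2 : Prop :=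
  ∀ (M : Type) [Field M] (l q : ℕ) [Fact l.Prime] (th : ℕ → M) (T Ph : M ≃+* M) (U : Set M),
    Tame M l q th T Ph U → ∀ z : M, z ∈ U → 1 - z ∈ U → T z = z → Ph z = z →
    ∃ a b : ℤ_[l],
      (∀ (m : ℕ) (j : ℤ), (l : ℤ_[l]) ^ m ∣ (j : ℤ_[l]) - a → Ex T th l m z j) ∧
      (∀ (m : ℕ) (j : ℤ), (l : ℤ_[l]) ^ m ∣ (j : ℤ_[l]) - b → Ex T th l m (1 - z) j) ∧
      ((a = 0 ∧ b = 0) ∨
        (a ≠ 0 ∧ b = 0 ∧ ∀ k, ∃ y : M, y ^ l ^ k = 1 - z ∧ T y = y ∧ Ph y = y) ∨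
        (a = 0 ∧ b ≠ 0 ∧ ∀ k, ∃ y : M, y ^ l ^ k = z ∧ T y = y ∧ Ph y = y) ∨
        (a ≠ 0 ∧ a = b ∧ ∀ k, ∃ y : M, y ^ l ^ k = 1 - z⁻¹ ∧ T y = y ∧ Ph y = y))

end Pool.Agent.U36.TS
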