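import Pool.Agent.U36.TS.Stm2

/-!
Third form: only roots of `l`-power order are needed.
-/

set_option autoImplicit false

namespace Pool.Agent.U36.TS

open Pool.Agent.TH954

/-- `M` contains the roots of order a power of `l` of its units over the curve with the valuation rings
`U` -/
def RootClosedAt {F : Type} (l : ℕ) (M : Type) [Field F] [Field M] [Algebra F M]
    (U : Set (ValuationSubring F)) : Prop :=
  ∀ a : M, a ≠ 0 → UnitOver U a → ∀ m : ℕ, ∃ w : M, w ^ l ^ m = a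

/-- TR: the abstract situation for a section -/
def S_TR4 : Prop :=
  ∀ (K F M B : Type) [Field K] [Field F] [Field M] [Field B] [CharZero K] [Algebra K F]
    [Algebra F M] [Algebra K M] [IsScalarTower K F M] [Algebra.IsAlgebraic F M] [Algebra K B]
    [IsAlgClosure K B] (U : Set (ValuationSubring F)), (∀ O ∈ U, ∀ c : K, algebraMap K F c ∈ O) →
    ∀ (s : GalSection K F M B) (V : ValuationSubring B) (p l q : ℕ),
    RootClosedAt l M U → p.Prime →
    l.Prime → p ≠ l → 2 ≤ q → (p : B) ∈ V.nonunits → ∀ t f : B ≃ₐ[K] B, Inertia V t → Frob V q f →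
    Wild V (f * t * f⁻¹ * (t ^ q)⁻¹) → ∀ th : ℕ → B, (∀ m, IsPrimitiveRoot (th m) (l ^ m)) →
    (∀ m, th (m + 1) ^ l = th m) →
    ∃ (th' : ℕ → fixW s V) (T Ph : fixW s V ≃+* fixW s V),
      (∀ m, (th' m : M) = s.j (th m)) ∧ (∀ x : fixW s V, (T x : M) = s.s t x) ∧
      (∀ x : fixW s V, (Ph x : M) = s.s f x) ∧
      (∀ (x : M) (m : ℕ), x ≠ 0 → x ^ l ^ m ∈ fixW s V → x ∈ fixW s V) ∧
      Tame (fixW s V) l q th' T Ph {x | (x : M) ≠ 0 ∧ UnitOver U (x : M)}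

/-- the theorem, third form -/
def S_MAIN4 : Prop :=
  ∀ (K F M B : Type) [Field K] [Field F] [Field M] [Field B] [CharZero K] [Algebra K F]
    [Algebra F M] [Algebra K M] [IsScalarTower K F M] [Algebra.IsAlgebraic F M] [Algebra K B]
    [IsAlgClosure K B] (U : Set (ValuationSubring F)), (∀ O ∈ U, ∀ c : K, algebraMap K F c ∈ O) →
    ∀ (s : GalSection K F M B) (V : ValuationSubring B) (p l q : ℕ)
    [Fact l.Prime], RootClosedAt l M U → p.Prime → p ≠ l → 2 ≤ q → (p : B) ∈ V.nonunits →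
    ∀ t f : B ≃ₐ[K] B, Inertia V t → Frob V q f → Wild V (f * t * f⁻¹ * (t ^ q)⁻¹) →
    ∀ th : ℕ → B, (∀ m, IsPrimitiveRoot (th m) (l ^ m)) → (∀ m, th (m + 1) ^ l = th m) →
    ∀ z : M, z ≠ 0 → z ≠ 1 → UnitOver U z → UnitOver U (1 - z) →
    (∀ g, s.s g z = z) →
    ∃ a b : ℤ_[l],
      (∀ (m : ℕ) (j : ℤ), (l : ℤ_[l]) ^ m ∣ (j : ℤ_[l]) - a → ∀ y : M, y ^ l ^ m = z →
        s.s t y = s.j (th m) ^ j * y) ∧
      (∀ (m : ℕ) (j : ℤ), (l : ℤ_[l]) ^ m ∣ (j : ℤ_[l]) - b → ∀ y : M, y ^ l ^ m = 1 - z →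
        s.s t y = s.j (th m) ^ j * y) ∧
      ((a = 0 ∧ b = 0) ∨
        (a ≠ 0 ∧ b = 0 ∧ ∀ k, ∃ y : M, y ^ l ^ k = 1 - z ∧ s.s t y = y ∧ s.s f y = y) ∨
        (a = 0 ∧ b ≠ 0 ∧ ∀ k, ∃ y : M, y ^ l ^ k = z ∧ s.s t y = y ∧ s.s f y = y) ∨
        (a ≠ 0 ∧ a = b ∧ ∀ k, ∃ y : M, y ^ l ^ k = 1 - z⁻¹ ∧ s.s t y = y ∧ s.s f y = y))


/-- subfields which are closed under `l`-th roots -/
theorem RootClosedAt.sub {F M : Type} [Field F] [Field M] [Algebra F M]
    {U : Set (ValuationSubring F)} {l : ℕ} (h : RootClosedAt l M U) (E : IntermediateField F M)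
    (hE : ∀ x : M, x ^ l ∈ E → x ∈ E) : RootClosedAt l E U := by
  intro a ha hu m
  have h0 : (a : M) ≠ 0 := fun h => ha (Subtype.ext h)
  obtain ⟨w, hw⟩ := h a h0 (by
    intro W hW
    have h1 : (W.comap (algebraMap E M)).comap (algebraMap F E) ∈ U := by
      have h2 : (W.comap (algebraMap E M)).comap (algebraMap F E) = W.comap (algebraMap F M) := by
        rw [ValuationSubring.comap_comap, ← IsScalarTower.algebraMap_eq]
      rw [h2]
      exact hW
    obtain ⟨h3, h4⟩ := hu _ h1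
    exact ⟨h3, by simpa using h4⟩) m
  have h5 : ∀ (m : ℕ) (x : M), x ^ l ^ m ∈ E → x ∈ E := by
    intro m
    induction m with
    | zero => intro x hx; simpa using hx
    | succ m ih =>
      intro x hx
      refine hE x (ih (x ^ l) ?_)
      rw [← pow_mul, ← pow_succ']
      exact hx
  exact ⟨⟨w, h5 m w (by rw [hw]; exact a.2)⟩, Subtype.ext hw⟩

end Pool.Agent.U36.TS
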